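import Mathlib
import Pool.Agent.H27.G.R_seed8.Helper112.MultLS

open Finset

namespace Pool.Agent.Helper112

namespace BLB

open Classical

lemma bracket (m : ℕ) [NeZero m] (a : ℕ) (ha : a.Coprime m) (n : ℕ) :
    (((if n ≡ a [MOD m] then (1 : ℝ) else 0) -
      (if n.Coprime m then (1 : ℝ) / (Nat.totient m : ℝ) else 0) : ℝ) : ℂ) =
    (1 / (Nat.totient m : ℂ)) *
      ∑ χ ∈ (univ : Finset (DirichletCharacter ℂ m)).filter (fun χ => χ ≠ 1),
        χ ((a : ZMod m)⁻¹) * χ (n : ZMod m) := by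
  have hau : IsUnit (a : ZMod m) := (ZMod.isUnit_iff_coprime a m).mpr ha
  have h0 : (Nat.totient m : ℂ) ≠ 0 := by
    have := Nat.totient_pos.mpr (NeZero.pos m)
    exact_mod_cast this.ne'
  have h1 := DirichletCharacter.sum_char_inv_mul_char_eq ℂ hau (n : ZMod m)
  have h2 := sum_filter_add_sum_filter_not (univ : Finset (DirichletCharacter ℂ m))
    (fun χ => χ ≠ 1) (fun χ => χ ((a : ZMod m)⁻¹) * χ (n : ZMod m))
  have h3 : ∑ χ ∈ (univ : Finset (DirichletCharacter ℂ m)).filter (fun χ => ¬ χ ≠ 1),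
      χ ((a : ZMod m)⁻¹) * χ (n : ZMod m) = if n.Coprime m then 1 else 0 := by
    have : (univ : Finset (DirichletCharacter ℂ m)).filter (fun χ => ¬ χ ≠ 1) = {1} := by
      ext χ; simp
    rw [this, sum_singleton]
    have hinv : IsUnit ((a : ZMod m)⁻¹) := by
      rw [← hau.unit_spec, ZMod.inv_coe_unit]
      exact Units.isUnit _
    rw [MulChar.one_apply hinv, one_mul]
    split_ifs with hn
    · exact MulChar.one_apply ((ZMod.isUnit_iff_coprime n m).mpr hn)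
    · exact MulChar.map_nonunit _ (fun h => hn ((ZMod.isUnit_iff_coprime n m).mp h))
  rw [h3, h1] at h2
  rw [← add_right_cancel_iff (a := if n.Coprime m then (1:ℂ) else 0)] at h2
  have h4 : ∑ χ ∈ (univ : Finset (DirichletCharacter ℂ m)).filter (fun χ => χ ≠ 1),
      χ ((a : ZMod m)⁻¹) * χ (n : ZMod m) =
      (if (a : ZMod m) = (n : ZMod m) then (Nat.totient m : ℂ) else 0) -
        (if n.Coprime m then 1 else 0) := by
    rw [eq_sub_iff_add_eq]
    exact add_right_cancel h2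
  rw [h4]
  have h5 : (n ≡ a [MOD m]) ↔ ((a : ZMod m) = (n : ZMod m)) := by
    rw [← ZMod.natCast_eq_natCast_iff, eq_comm]
  by_cases h6 : n ≡ a [MOD m]
  · rw [if_pos h6, if_pos (h5.mp h6)]
    split_ifs
    · push_cast; field_simp
    · push_cast; field_simp; ring
  · rw [if_neg h6, if_neg (fun h => h6 (h5.mpr h))]
    split_ifs
    · push_cast; field_simp; ring
    · simp

/-- character sum -/
noncomputable def A (X : ℕ) (α : ℕ → ℝ) (m : ℕ) (χ : DirichletCharacter ℂ m) : ℂ :=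
  ∑ b ∈ Icc 1 X, (α b : ℂ) * χ (b : ZMod m)

lemma step1 (X Y : ℕ) (α β : ℕ → ℝ) (m : ℕ) [NeZero m] (a : ℕ) (ha : a.Coprime m) :
    |∑ b ∈ Icc 1 X, ∑ c ∈ Icc 1 Y, α b * β c *
        ((if b * c ≡ a [MOD m] then (1 : ℝ) else 0) -
          (if (b * c).Coprime m then (1 : ℝ) / (Nat.totient m : ℝ) else 0))| ≤
    (1 / (Nat.totient m : ℝ)) *
      ∑ χ ∈ (univ : Finset (DirichletCharacter ℂ m)).filter (fun χ => χ ≠ 1),
        ‖A X α m χ‖ * ‖A Y β m χ‖ := by
  have key : ((∑ b ∈ Icc 1 X, ∑ c ∈ Icc 1 Y, α b * β c *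
        ((if b * c ≡ a [MOD m] then (1 : ℝ) else 0) -
          (if (b * c).Coprime m then (1 : ℝ) / (Nat.totient m : ℝ) else 0)) : ℝ) : ℂ) =
      (1 / (Nat.totient m : ℂ)) *
      ∑ χ ∈ (univ : Finset (DirichletCharacter ℂ m)).filter (fun χ => χ ≠ 1),
        χ ((a : ZMod m)⁻¹) * (A X α m χ * A Y β m χ) := by
    rw [Complex.ofReal_sum]
    simp_rw [Complex.ofReal_sum]
    have : ∀ b ∈ Icc 1 X, ∀ c ∈ Icc 1 Y, ((α b * β c *
        ((if b * c ≡ a [MOD m] then (1 : ℝ) else 0) -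
          (if (b * c).Coprime m then (1 : ℝ) / (Nat.totient m : ℝ) else 0)) : ℝ) : ℂ) =
        ∑ χ ∈ (univ : Finset (DirichletCharacter ℂ m)).filter (fun χ => χ ≠ 1),
          (1 / (Nat.totient m : ℂ)) * (χ ((a : ZMod m)⁻¹) *
            (((α b : ℂ) * χ (b : ZMod m)) * ((β c : ℂ) * χ (c : ZMod m)))) := by
      intro b _ c _
      rw [Complex.ofReal_mul, bracket m a ha (b * c), mul_sum, mul_sum]
      apply sum_congr rfl
      intro χ _
      push_cast
      rw [map_mul]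
      ring
    rw [sum_congr rfl fun b hb => sum_congr rfl fun c hc => this b hb c hc]
    rw [sum_congr rfl fun b _ => sum_comm, sum_comm, mul_sum]
    apply sum_congr rfl
    intro χ _
    unfold A
    rw [sum_mul_sum, mul_sum, mul_sum]
    apply sum_congr rfl
    intro b _
    rw [mul_sum, mul_sum]
  rw [← Real.norm_eq_abs, ← Complex.norm_real, key, norm_mul]
  have h1 : ‖(1 / (Nat.totient m : ℂ))‖ = 1 / (Nat.totient m : ℝ) := by
    rw [norm_div, norm_one, Complex.norm_natCast]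
  rw [h1]
  apply mul_le_mul_of_nonneg_left _ (by positivity)
  refine (norm_sum_le _ _).trans (sum_le_sum ?_)
  intro χ _
  rw [norm_mul, norm_mul]
  have : ‖χ ((a : ZMod m)⁻¹)‖ ≤ 1 := χ.norm_le_one _
  calc ‖χ ((a : ZMod m)⁻¹)‖ * (‖A X α m χ‖ * ‖A Y β m χ‖) ≤ 1 * (‖A X α m χ‖ * ‖A Y β m χ‖) :=
        mul_le_mul_of_nonneg_right this (by positivity)
    _ = _ := one_mul _

/-- restriction to integers coprime to `g` -/
noncomputable def res (g : ℕ) (α : ℕ → ℝ) (b : ℕ) : ℝ := if b.Coprime g then α b else 0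

lemma A_changeLevel (X : ℕ) (α : ℕ → ℝ) (f g : ℕ) (h : f ∣ f * g)
    (ψ : DirichletCharacter ℂ f) :
    A X α (f * g) (DirichletCharacter.changeLevel h ψ) = A X (res g α) f ψ := by
  unfold A
  apply sum_congr rfl
  intro b _
  unfold res
  by_cases hb : b.Coprime (f * g)
  · have h1 := DirichletCharacter.changeLevel_eq_cast_of_dvd' ψ h (a := (b : ℤ))
      (by exact_mod_cast Nat.isCoprime_iff_coprime.mpr hb)
    push_cast at h1
    rw [h1, if_pos (Nat.Coprime.coprime_mul_left_right hb)]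
  · rw [MulChar.map_nonunit _ (fun hu => hb ((ZMod.isUnit_iff_coprime b _).mp hu)), mul_zero]
    split_ifs with hg
    · have : ¬ b.Coprime f := fun hf => hb (Nat.Coprime.mul_right hf hg)
      rw [MulChar.map_nonunit _ (fun hu => this ((ZMod.isUnit_iff_coprime b _).mp hu)), mul_zero]
    · simp

lemma step2 (m : ℕ) [NeZero m] (w : DirichletCharacter ℂ m → ℝ) (hw : ∀ χ, 0 ≤ w χ)
    (W : (f : ℕ) → DirichletCharacter ℂ f → ℝ)
    (hW : ∀ f (h : f ∣ m) (ψ : DirichletCharacter ℂ f),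
      w (DirichletCharacter.changeLevel h ψ) ≤ W f ψ) :
    ∑ χ ∈ (univ : Finset (DirichletCharacter ℂ m)).filter (fun χ => χ ≠ 1), w χ ≤
      ∑ f ∈ m.divisors.filter (fun f => f ≠ 1),
        ∑ ψ ∈ (univ : Finset (DirichletCharacter ℂ f)).filter (fun χ => χ.IsPrimitive), W f ψ := by
  have h1 : ∀ χ ∈ (univ : Finset (DirichletCharacter ℂ m)).filter (fun χ => χ ≠ 1),
      χ.conductor ∈ m.divisors.filter (fun f => f ≠ 1) := by
    intro χ hχ
    rw [mem_filter] at hχ ⊢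
    refine ⟨Nat.mem_divisors.mpr ⟨χ.conductor_dvd_level, NeZero.ne m⟩, ?_⟩
    intro h
    exact hχ.2 (DirichletCharacter.eq_one_iff_conductor_eq_one.mpr h)
  rw [← sum_fiberwise_of_maps_to h1]
  apply sum_le_sum
  intro f hf
  rw [mem_filter, Nat.mem_divisors] at hf
  have hfm := hf.1.1
  have h2 : (((univ : Finset (DirichletCharacter ℂ m)).filter (fun χ => χ ≠ 1)).filter
      (fun χ => χ.conductor = f)) ⊆
      ((univ : Finset (DirichletCharacter ℂ f)).filter (fun χ => χ.IsPrimitive)).image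
        (DirichletCharacter.changeLevel hfm) := by
    intro χ hχ
    rw [mem_filter] at hχ
    obtain ⟨_, hc⟩ := hχ
    subst hc
    rw [mem_image]
    exact ⟨χ.primitiveCharacter, by
      rw [mem_filter]; exact ⟨mem_univ _, χ.primitiveCharacter_isPrimitive⟩,
      χ.changeLevel_primitiveCharacter⟩
  calc _ ≤ ∑ χ ∈ ((univ : Finset (DirichletCharacter ℂ f)).filter (fun χ => χ.IsPrimitive)).image
        (DirichletCharacter.changeLevel hfm), w χ :=
        sum_le_sum_of_subset_of_nonneg h2 fun χ _ _ => hw χ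
    _ = ∑ ψ ∈ (univ : Finset (DirichletCharacter ℂ f)).filter (fun χ => χ.IsPrimitive),
        w (DirichletCharacter.changeLevel hfm ψ) := by
        rw [sum_image]
        intro x _ y _ hxy
        exact DirichletCharacter.changeLevel_injective hfm hxy
    _ ≤ _ := sum_le_sum fun ψ _ => hW f hfm ψ

/-- sum over primitive characters -/
noncomputable def P (X Y : ℕ) (α β : ℕ → ℝ) (f : ℕ) : ℝ :=
  ∑ ψ ∈ (univ : Finset (DirichletCharacter ℂ f)).filter (fun χ => χ.IsPrimitive),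
    ‖A X α f ψ‖ * ‖A Y β f ψ‖

lemma P_nonneg (X Y : ℕ) (α β : ℕ → ℝ) (f : ℕ) : 0 ≤ P X Y α β f :=
  sum_nonneg fun _ _ => by positivity

lemma step12 (X Y : ℕ) (α β : ℕ → ℝ) (m : ℕ) (hm : m ≠ 0) (a : ℕ) (ha : a.Coprime m) :
    |∑ b ∈ Icc 1 X, ∑ c ∈ Icc 1 Y, α b * β c *
        ((if b * c ≡ a [MOD m] then (1 : ℝ) else 0) -
          (if (b * c).Coprime m then (1 : ℝ) / (Nat.totient m : ℝ) else 0))| ≤
    ∑ f ∈ m.divisors.filter (fun f => f ≠ 1),
      (1 / (Nat.totient m : ℝ)) * P X Y (res (m / f) α) (res (m / f) β) f := by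
  have : NeZero m := ⟨hm⟩
  refine (step1 X Y α β m a ha).trans ?_
  rw [← mul_sum]
  apply mul_le_mul_of_nonneg_left _ (by positivity)
  apply step2 m (fun χ => ‖A X α m χ‖ * ‖A Y β m χ‖) (fun χ => by positivity)
    (fun f ψ => ‖A X (res (m / f) α) f ψ‖ * ‖A Y (res (m / f) β) f ψ‖)
  intro f h ψ
  obtain ⟨g, rfl⟩ := h
  have hf : 0 < f := by
    rcases Nat.eq_zero_or_pos f with h | h
    · subst h; simp at hm
    · exact h
  rw [Nat.mul_div_cancel_left g hf, A_changeLevel, A_changeLevel]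

/-- the large sieve for `P` -/
lemma P_sieve (X Y : ℕ) (α β : ℕ → ℝ) (j : ℕ) :
    ∑ f ∈ Icc 1 j, ((f : ℝ) / (Nat.totient f : ℝ)) * P X Y α β f ≤
      6 * ((Real.sqrt X + j) * (Real.sqrt Y + j)) *
        (Real.sqrt (∑ b ∈ Icc 1 X, α b ^ 2) * Real.sqrt (∑ c ∈ Icc 1 Y, β c ^ 2)) := by
  have hA := mult_large_sieve X j (fun b => (α b : ℂ))
  have hB := mult_large_sieve Y j (fun b => (β b : ℂ))
  simp only [Complex.norm_real, Real.norm_eq_abs, sq_abs] at hA hB
  set SA := ∑ f ∈ Icc 1 j, ((f : ℝ) / (Nat.totient f : ℝ)) *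
      ∑ χ ∈ (univ : Finset (DirichletCharacter ℂ f)).filter (fun χ => χ.IsPrimitive),
        ‖∑ n ∈ Icc 1 X, (α n : ℂ) * χ (n : ZMod f)‖ ^ 2 with hSA
  set SB := ∑ f ∈ Icc 1 j, ((f : ℝ) / (Nat.totient f : ℝ)) *
      ∑ χ ∈ (univ : Finset (DirichletCharacter ℂ f)).filter (fun χ => χ.IsPrimitive),
        ‖∑ n ∈ Icc 1 Y, (β n : ℂ) * χ (n : ZMod f)‖ ^ 2 with hSB
  have hSA' : SA = ∑ f ∈ Icc 1 j, ∑ χ ∈ (univ : Finset (DirichletCharacter ℂ f)).filter
      (fun χ => χ.IsPrimitive), (Real.sqrt ((f : ℝ) / (Nat.totient f : ℝ)) * ‖A X α f χ‖) ^ 2 := by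
    rw [hSA]
    apply sum_congr rfl; intro f _
    rw [mul_sum]
    apply sum_congr rfl; intro χ _
    rw [mul_pow, Real.sq_sqrt (by positivity)]
    rfl
  have hSB' : SB = ∑ f ∈ Icc 1 j, ∑ χ ∈ (univ : Finset (DirichletCharacter ℂ f)).filter
      (fun χ => χ.IsPrimitive), (Real.sqrt ((f : ℝ) / (Nat.totient f : ℝ)) * ‖A Y β f χ‖) ^ 2 := by
    rw [hSB]
    apply sum_congr rfl; intro f _
    rw [mul_sum]
    apply sum_congr rfl; intro χ _
    rw [mul_pow, Real.sq_sqrt (by positivity)]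
    rfl
  have h1 : ∑ f ∈ Icc 1 j, ((f : ℝ) / (Nat.totient f : ℝ)) * P X Y α β f =
      ∑ f ∈ Icc 1 j, ∑ χ ∈ (univ : Finset (DirichletCharacter ℂ f)).filter
      (fun χ => χ.IsPrimitive), (Real.sqrt ((f : ℝ) / (Nat.totient f : ℝ)) * ‖A X α f χ‖) *
        (Real.sqrt ((f : ℝ) / (Nat.totient f : ℝ)) * ‖A Y β f χ‖) := by
    apply sum_congr rfl; intro f _
    unfold P
    rw [mul_sum]
    apply sum_congr rfl; intro χ _
    have : ((f : ℝ) / (Nat.totient f : ℝ)) = Real.sqrt ((f : ℝ) / (Nat.totient f : ℝ)) *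
      Real.sqrt ((f : ℝ) / (Nat.totient f : ℝ)) := (Real.mul_self_sqrt (by positivity)).symm
    conv_lhs => rw [this]
    ring
  have h2 : ∑ f ∈ Icc 1 j, ((f : ℝ) / (Nat.totient f : ℝ)) * P X Y α β f ≤
      Real.sqrt SA * Real.sqrt SB := by
    rw [h1, hSA', hSB', sum_sigma', sum_sigma', sum_sigma']
    exact Real.sum_mul_le_sqrt_mul_sqrt _ _ _
  refine h2.trans ?_
  have hX : Real.sqrt ((X : ℝ) + (j : ℝ) ^ 2) ≤ Real.sqrt X + j := by
    rw [Real.sqrt_le_left (by positivity)]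
    have := Real.sq_sqrt (Nat.cast_nonneg (α := ℝ) X)
    have h3 := Real.sqrt_nonneg (X : ℝ)
    have h4 := Nat.cast_nonneg (α := ℝ) j
    nlinarith
  have hY : Real.sqrt ((Y : ℝ) + (j : ℝ) ^ 2) ≤ Real.sqrt Y + j := by
    rw [Real.sqrt_le_left (by positivity)]
    have := Real.sq_sqrt (Nat.cast_nonneg (α := ℝ) Y)
    have h3 := Real.sqrt_nonneg (Y : ℝ)
    have h4 := Nat.cast_nonneg (α := ℝ) j
    nlinarith
  have hA2 : Real.sqrt SA ≤ Real.sqrt 6 * (Real.sqrt X + j) *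
      Real.sqrt (∑ b ∈ Icc 1 X, α b ^ 2) := by
    refine (Real.sqrt_le_sqrt hA).trans ?_
    rw [Real.sqrt_mul (by positivity), Real.sqrt_mul (by positivity)]
    gcongr
  have hB2 : Real.sqrt SB ≤ Real.sqrt 6 * (Real.sqrt Y + j) *
      Real.sqrt (∑ b ∈ Icc 1 Y, β b ^ 2) := by
    refine (Real.sqrt_le_sqrt hB).trans ?_
    rw [Real.sqrt_mul (by positivity), Real.sqrt_mul (by positivity)]
    gcongr
  have h6 : Real.sqrt 6 * Real.sqrt 6 = 6 := Real.mul_self_sqrt (by norm_num)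
  calc Real.sqrt SA * Real.sqrt SB ≤ (Real.sqrt 6 * (Real.sqrt X + j) *
      Real.sqrt (∑ b ∈ Icc 1 X, α b ^ 2)) * (Real.sqrt 6 * (Real.sqrt Y + j) *
      Real.sqrt (∑ b ∈ Icc 1 Y, β b ^ 2)) := by gcongr
    _ = (Real.sqrt 6 * Real.sqrt 6) * ((Real.sqrt X + j) * (Real.sqrt Y + j)) *
        (Real.sqrt (∑ b ∈ Icc 1 X, α b ^ 2) * Real.sqrt (∑ c ∈ Icc 1 Y, β c ^ 2)) := by ring
    _ = _ := by rw [h6]

/-- Abel summation -/
lemma abel (R : ℕ → ℝ) (F0 F1 : ℕ) (h0 : 1 ≤ F0) (h : F0 ≤ F1 + 1) :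
    ∑ f ∈ Icc F0 F1, R f / f = (∑ f ∈ Icc F0 F1, R f) / (F1 + 1) +
      ∑ j ∈ Icc F0 F1, (∑ f ∈ Icc F0 j, R f) / (j * (j + 1)) := by
  induction F1 with
  | zero =>
    have : F0 = 1 := by omega
    subst this; simp
  | succ n ih =>
    rcases Nat.lt_or_ge (n + 1) F0 with h1 | h1
    · have e : Icc F0 (n + 1) = ∅ := Icc_eq_empty (by omega)
      simp [e]
    · have ih' := ih h1
      rw [sum_Icc_succ_top h1, sum_Icc_succ_top h1, sum_Icc_succ_top h1, ih',
        sum_Icc_succ_top h1]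
      push_cast
      have e1 : (n:ℝ) + 1 ≠ 0 := by positivity
      have e2 : (n:ℝ) + 1 + 1 ≠ 0 := by positivity
      field_simp
      ring

lemma step45 (X Y : ℕ) (α β : ℕ → ℝ) (F0 F1 : ℕ) (h0 : 1 ≤ F0) (h1 : 1 ≤ F1) :
    ∑ f ∈ Icc F0 F1, (1 / (Nat.totient f : ℝ)) * P X Y α β f ≤
      12 * (1 + Real.log F1) * (Real.sqrt (X * Y) / F0 + (Real.sqrt X + Real.sqrt Y) + F1) *
        (Real.sqrt (∑ b ∈ Icc 1 X, α b ^ 2) * Real.sqrt (∑ c ∈ Icc 1 Y, β c ^ 2)) := by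
  set T := Real.sqrt (∑ b ∈ Icc 1 X, α b ^ 2) * Real.sqrt (∑ c ∈ Icc 1 Y, β c ^ 2) with hT
  have hT0 : 0 ≤ T := by positivity
  have hlog : 0 ≤ Real.log F1 := Real.log_natCast_nonneg F1
  have hF0r : (1:ℝ) ≤ F0 := by exact_mod_cast h0
  have hF1r : (1:ℝ) ≤ F1 := by exact_mod_cast h1
  rcases Nat.lt_or_ge F1 F0 with hlt | hge
  · rw [Icc_eq_empty (by omega), sum_empty]
    positivity
  set R : ℕ → ℝ := fun f => ((f : ℝ) / (Nat.totient f : ℝ)) * P X Y α β f with hR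
  have hR0 : ∀ f, 0 ≤ R f := fun f => mul_nonneg (by positivity) (P_nonneg _ _ _ _ _)
  have e1 : ∑ f ∈ Icc F0 F1, (1 / (Nat.totient f : ℝ)) * P X Y α β f =
      ∑ f ∈ Icc F0 F1, R f / f := by
    apply sum_congr rfl
    intro f hf
    rw [mem_Icc] at hf
    have : (f:ℝ) ≠ 0 := by
      have : 0 < f := by omega
      positivity
    rw [hR]
    field_simp
  rw [e1, abel R F0 F1 h0 (by omega)]
  have hS : ∀ j, ∑ f ∈ Icc F0 j, R f ≤ 6 * ((Real.sqrt X + j) * (Real.sqrt Y + j)) * T := by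
    intro j
    refine le_trans ?_ (P_sieve X Y α β j)
    exact sum_le_sum_of_subset_of_nonneg (Icc_subset_Icc_left h0) fun f _ _ => hR0 f
  have hXY : Real.sqrt X * Real.sqrt Y = Real.sqrt (X * Y) := (Real.sqrt_mul (by positivity) _).symm
  set x := Real.sqrt X with hx
  set y := Real.sqrt Y with hy
  set q := Real.sqrt ((X:ℝ) * Y) with hq
  have hx0 : 0 ≤ x := Real.sqrt_nonneg _
  have hy0 : 0 ≤ y := Real.sqrt_nonneg _
  have hq0 : 0 ≤ q := Real.sqrt_nonneg _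
  have t1 : (∑ f ∈ Icc F0 F1, R f) / ((F1:ℝ) + 1) ≤ 6 * (q / F0 + (x + y) + F1) * T := by
    rw [div_le_iff₀ (by positivity)]
    refine (hS F1).trans ?_
    have : (x + F1) * (y + F1) ≤ (q / F0 + (x + y) + F1) * (F1 + 1) := by
      have e : (x + F1) * (y + F1) = q + (x + y) * F1 + F1 * F1 := by rw [← hXY]; ring
      rw [e]
      have h3 : q ≤ q / F0 * (F1 + 1) := by
        rw [div_mul_eq_mul_div, le_div_iff₀ (by positivity)]
        apply mul_le_mul_of_nonneg_left _ hq0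
        have : (F0:ℝ) ≤ F1 := by exact_mod_cast hge
        linarith
      nlinarith
    calc 6 * ((x + F1) * (y + F1)) * T ≤ 6 * ((q / F0 + (x + y) + F1) * (F1 + 1)) * T := by gcongr
      _ = _ := by ring
  have t2 : ∀ j ∈ Icc F0 F1, (∑ f ∈ Icc F0 j, R f) / ((j:ℝ) * (j + 1)) ≤
      6 * T * (q * (1 / j - 1 / (j + 1)) + (x + y) * (1 / j) + 1) := by
    intro j hj
    rw [mem_Icc] at hj
    have hj0 : (0:ℝ) < j := by
      have : 0 < j := by omega
      positivity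
    rw [div_le_iff₀ (by positivity)]
    refine (hS j).trans ?_
    have e : (x + j) * (y + j) = q + (x + y) * j + j * j := by rw [← hXY]; ring
    have e2 : (q * (1 / (j:ℝ) - 1 / (j + 1)) + (x + y) * (1 / j) + 1) * (j * (j + 1)) =
        q + (x + y) * (j + 1) + j * (j + 1) := by
      field_simp
      ring
    have : (x + j) * (y + j) ≤ (q * (1 / (j:ℝ) - 1 / (j + 1)) + (x + y) * (1 / j) + 1) *
        (j * (j + 1)) := by
      rw [e, e2]
      nlinarith
    calc 6 * ((x + j) * (y + j)) * T ≤ 6 * ((q * (1 / (j:ℝ) - 1 / (j + 1)) + (x + y) * (1 / j) + 1) *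
        (j * (j + 1))) * T := by gcongr
      _ = _ := by ring
  have t3 : ∑ j ∈ Icc F0 F1, (1 / (j:ℝ) - 1 / (j + 1)) ≤ 1 / F0 := by
    have : ∀ n : ℕ, F0 ≤ n + 1 → ∑ j ∈ Icc F0 n, (1 / (j:ℝ) - 1 / (j + 1)) = 1 / F0 - 1 / (n + 1) := by
      intro n hn
      induction n with
      | zero =>
        have : F0 = 1 := by omega
        subst this; simp
      | succ n ih =>
        rcases Nat.lt_or_ge (n + 1) F0 with h1 | h1
        · have e : Icc F0 (n + 1) = ∅ := Icc_eq_empty (by omega)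
          have : F0 = n + 1 + 1 := by omega
          rw [e, this]; simp
        · rw [sum_Icc_succ_top h1, ih h1]
          push_cast
          ring
    rw [this F1 (by omega)]
    have : 0 ≤ 1 / ((F1:ℝ) + 1) := by positivity
    linarith
  have t4 : ∑ j ∈ Icc F0 F1, (1 / (j:ℝ)) ≤ 1 + Real.log F1 := by
    have h2 := harmonic_le_one_add_log F1
    rw [harmonic_eq_sum_Icc] at h2
    push_cast at h2
    refine le_trans ?_ h2
    simp_rw [one_div]
    exact sum_le_sum_of_subset_of_nonneg (Icc_subset_Icc_left h0) fun f _ _ => by positivity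
  have t5 : ∑ j ∈ Icc F0 F1, (1:ℝ) ≤ F1 := by
    rw [sum_const, Nat.card_Icc, nsmul_eq_mul, mul_one]
    have : F1 + 1 - F0 ≤ F1 := by omega
    exact_mod_cast this
  have t6 : ∑ j ∈ Icc F0 F1, (∑ f ∈ Icc F0 j, R f) / ((j:ℝ) * (j + 1)) ≤
      6 * T * (q * (1 / F0) + (x + y) * (1 + Real.log F1) + F1) := by
    refine (sum_le_sum t2).trans ?_
    rw [← mul_sum, sum_add_distrib, sum_add_distrib, ← mul_sum, ← mul_sum]
    gcongr
  refine (add_le_add t1 t6).trans ?_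
  have hqF : 0 ≤ q / F0 := by positivity
  have e7 : q * (1 / (F0:ℝ)) = q / F0 := by ring
  rw [e7]
  have key : 6 * (q / F0 + (x + y) + F1) + 6 * (q / F0 + (x + y) * (1 + Real.log F1) + F1) ≤
      12 * (1 + Real.log F1) * (q / F0 + (x + y) + F1) := by
    have p1 : 0 ≤ Real.log F1 * (q / F0) := by positivity
    have p2 : 0 ≤ Real.log F1 * (x + y) := by positivity
    have p3 : 0 ≤ Real.log F1 * F1 := by positivity
    nlinarith
  calc 6 * (q / F0 + (x + y) + F1) * T + 6 * T * (q / F0 + (x + y) * (1 + Real.log F1) + F1) =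
      (6 * (q / F0 + (x + y) + F1) + 6 * (q / F0 + (x + y) * (1 + Real.log F1) + F1)) * T := by ring
    _ ≤ _ := mul_le_mul_of_nonneg_right key hT0

lemma res_sq (X g : ℕ) (α : ℕ → ℝ) :
    Real.sqrt (∑ b ∈ Icc 1 X, res g α b ^ 2) ≤ Real.sqrt (∑ b ∈ Icc 1 X, α b ^ 2) := by
  apply Real.sqrt_le_sqrt
  apply sum_le_sum
  intro b _
  unfold res
  split_ifs
  · exact le_refl _
  · simpa using sq_nonneg (α b)

end BLB

open BLB in
/-- T3. bilinear (type II) bound over a set of moduli all of whose nontrivial divisors are large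
(from T2) -/
theorem bilinear_bound (X Y F0 F1 : ℕ) (α β : ℕ → ℝ) (M : Finset ℕ) (a : ℕ → ℕ) (hF0 : 1 ≤ F0)
    (hM : ∀ m ∈ M, Squarefree m ∧ m ≤ F1 ∧ m ≤ 2 * Nat.totient m ∧
      (∀ f, f ∣ m → f ≠ 1 → F0 ≤ f) ∧ (a m).Coprime m) :
    ∑ m ∈ M, |∑ b ∈ Icc 1 X, ∑ c ∈ Icc 1 Y, α b * β c *
        ((if b * c ≡ a m [MOD m] then (1 : ℝ) else 0) -
          (if (b * c).Coprime m then (1 : ℝ) / (Nat.totient m : ℝ) else 0))|
      ≤ 100 * (1 + Real.log F1) ^ 2 *
        (Real.sqrt (X * Y) / F0 + (Real.sqrt X + Real.sqrt Y) + F1) *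
        (Real.sqrt (∑ b ∈ Icc 1 X, α b ^ 2) * Real.sqrt (∑ c ∈ Icc 1 Y, β c ^ 2)) := by
  rcases Nat.eq_zero_or_pos F1 with h1 | h1
  · have : M = ∅ := by
      rw [eq_empty_iff_forall_notMem]
      intro m hm
      obtain ⟨hs, hle, -⟩ := hM m hm
      have : m = 0 := by omega
      subst this
      exact not_squarefree_zero hs
    rw [this, sum_empty]
    positivity
  set T := Real.sqrt (∑ b ∈ Icc 1 X, α b ^ 2) * Real.sqrt (∑ c ∈ Icc 1 Y, β c ^ 2) with hT
  have hT0 : 0 ≤ T := by positivity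
  set Z := Real.sqrt (X * Y) / F0 + (Real.sqrt X + Real.sqrt Y) + F1 with hZ
  have hZ0 : 0 ≤ Z := by positivity
  have hlog : 0 ≤ Real.log F1 := Real.log_natCast_nonneg F1
  set G : ℕ → ℕ → ℝ := fun g f => (2 / (g:ℝ)) * ((1 / (Nat.totient f : ℝ)) *
    P X Y (res g α) (res g β) f) with hG
  have hG0 : ∀ g f, 0 ≤ G g f := fun g f =>
    mul_nonneg (by positivity) (mul_nonneg (by positivity) (P_nonneg _ _ _ _ _))
  -- step 3
  have s3 : ∑ m ∈ M, |∑ b ∈ Icc 1 X, ∑ c ∈ Icc 1 Y, α b * β c *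
        ((if b * c ≡ a m [MOD m] then (1 : ℝ) else 0) -
          (if (b * c).Coprime m then (1 : ℝ) / (Nat.totient m : ℝ) else 0))| ≤
      ∑ m ∈ M, ∑ f ∈ m.divisors.filter (fun f => f ≠ 1), G (m / f) f := by
    apply sum_le_sum
    intro m hm
    obtain ⟨hs, hle, htot, hdiv, hcop⟩ := hM m hm
    have hm0 : m ≠ 0 := hs.ne_zero
    refine (step12 X Y α β m hm0 (a m) hcop).trans ?_
    apply sum_le_sum
    intro f hf
    rw [mem_filter, Nat.mem_divisors] at hf
    obtain ⟨⟨⟨g, rfl⟩, -⟩, hf1⟩ := hf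
    have hf0 : 0 < f := Nat.pos_of_ne_zero (by rintro rfl; simp at hm0)
    have hg0 : 0 < g := Nat.pos_of_ne_zero (by rintro rfl; simp at hm0)
    rw [Nat.mul_div_cancel_left g hf0]
    have hcop2 : f.Coprime g := Nat.coprime_of_squarefree_mul hs
    rw [Nat.totient_mul hcop2] at htot ⊢
    have htg : g ≤ 2 * Nat.totient g := by
      have h3 : Nat.totient f ≤ f := Nat.totient_le f
      have h4 : f * g ≤ f * (2 * Nat.totient g) := by
        calc f * g ≤ 2 * (Nat.totient f * Nat.totient g) := htot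
          _ ≤ 2 * (f * Nat.totient g) := by gcongr
          _ = _ := by ring
      exact Nat.le_of_mul_le_mul_left h4 hf0
    have hP := P_nonneg X Y (res g α) (res g β) f
    have htf : (0:ℝ) < Nat.totient f := by exact_mod_cast Nat.totient_pos.mpr hf0
    have htg0 : (0:ℝ) < Nat.totient g := by exact_mod_cast Nat.totient_pos.mpr hg0
    have hgr : (0:ℝ) < g := by exact_mod_cast hg0
    have h5 : 1 / (Nat.totient g : ℝ) ≤ 2 / g := by
      rw [div_le_div_iff₀ htg0 hgr]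
      have : (g:ℝ) ≤ 2 * Nat.totient g := by exact_mod_cast htg
      linarith
    have e5 : 1 / (((Nat.totient f * Nat.totient g : ℕ) : ℝ)) =
        1 / (Nat.totient g : ℝ) * (1 / (Nat.totient f : ℝ)) := by
      push_cast
      field_simp
    rw [e5, mul_assoc]
    exact mul_le_mul_of_nonneg_right h5 (mul_nonneg (by positivity) hP)
  refine s3.trans ?_
  -- injection
  have s4 : ∑ m ∈ M, ∑ f ∈ m.divisors.filter (fun f => f ≠ 1), G (m / f) f ≤
      ∑ g ∈ Icc 1 F1, ∑ f ∈ Icc F0 F1, G g f := by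
    rw [sum_sigma', ← sum_product']
    have e6 : ∑ x ∈ M.sigma (fun m => m.divisors.filter (fun f => f ≠ 1)), G (x.1 / x.2) x.2 =
        ∑ p ∈ (M.sigma (fun m => m.divisors.filter (fun f => f ≠ 1))).image
          (fun x : (_ : ℕ) × ℕ => (x.1 / x.2, x.2)), G p.1 p.2 := by
      rw [sum_image]
      rintro ⟨m, f⟩ hx ⟨m', f'⟩ hx' heq
      simp only [Finset.mem_coe, mem_sigma, mem_filter, Nat.mem_divisors] at hx hx'
      simp only [Prod.mk.injEq] at heq
      obtain ⟨h7, h8⟩ := heq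
      subst h8
      have : m = m' := by
        rw [← Nat.div_mul_cancel hx.2.1.1, h7, Nat.div_mul_cancel hx'.2.1.1]
      subst this
      rfl
    rw [e6]
    apply sum_le_sum_of_subset_of_nonneg
    · intro p hp
      rw [mem_image] at hp
      obtain ⟨⟨m, f⟩, hx, rfl⟩ := hp
      simp only [mem_sigma, mem_filter, Nat.mem_divisors] at hx
      obtain ⟨hs, hle, htot, hdiv, hcop⟩ := hM m hx.1
      have hm0 : 0 < m := Nat.pos_of_ne_zero hs.ne_zero
      have hfm := hx.2.1.1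
      have hf0 : 0 < f := Nat.pos_of_dvd_of_pos hfm hm0
      simp only [mem_product, mem_Icc]
      refine ⟨⟨Nat.div_pos (Nat.le_of_dvd hm0 hfm) hf0, (Nat.div_le_self m f).trans hle⟩,
        hdiv f hfm hx.2.2, (Nat.le_of_dvd hm0 hfm).trans hle⟩
    · intro p _ _
      exact hG0 _ _
  refine s4.trans ?_
  have s5 : ∀ g ∈ Icc 1 F1, ∑ f ∈ Icc F0 F1, G g f ≤ (1 / (g:ℝ)) * (24 * (1 + Real.log F1) * Z * T) := by
    intro g _
    rw [hG, ← mul_sum]
    have h8 := step45 X Y (res g α) (res g β) F0 F1 hF0 h1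
    have h9 : Real.sqrt (∑ b ∈ Icc 1 X, res g α b ^ 2) * Real.sqrt (∑ c ∈ Icc 1 Y, res g β c ^ 2) ≤ T :=
      mul_le_mul (res_sq _ _ _) (res_sq _ _ _) (Real.sqrt_nonneg _) (Real.sqrt_nonneg _)
    have h10 : ∑ f ∈ Icc F0 F1, (1 / (Nat.totient f : ℝ)) * P X Y (res g α) (res g β) f ≤
        12 * (1 + Real.log F1) * Z * T :=
      h8.trans (mul_le_mul_of_nonneg_left h9 (by positivity))
    calc 2 / (g:ℝ) * ∑ f ∈ Icc F0 F1, (1 / (Nat.totient f : ℝ)) * P X Y (res g α) (res g β) f ≤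
        2 / (g:ℝ) * (12 * (1 + Real.log F1) * Z * T) := mul_le_mul_of_nonneg_left h10 (by positivity)
      _ = _ := by ring
  refine (sum_le_sum s5).trans ?_
  rw [← sum_mul]
  have s6 : ∑ j ∈ Icc 1 F1, (1 / (j:ℝ)) ≤ 1 + Real.log F1 := by
    have h2 := harmonic_le_one_add_log F1
    rw [harmonic_eq_sum_Icc] at h2
    push_cast at h2
    simp_rw [one_div]
    exact h2
  calc (∑ j ∈ Icc 1 F1, (1 / (j:ℝ))) * (24 * (1 + Real.log F1) * Z * T) ≤
      (1 + Real.log F1) * (24 * (1 + Real.log F1) * Z * T) :=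
        mul_le_mul_of_nonneg_right s6 (by positivity)
    _ = 24 * ((1 + Real.log F1) ^ 2 * Z * T) := by ring
    _ ≤ 100 * ((1 + Real.log F1) ^ 2 * Z * T) := by
        apply mul_le_mul_of_nonneg_right (by norm_num) (by positivity)
    _ = _ := by ring

end Pool.Agent.Helper112

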