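import Mathlib

open Finset

namespace Pool.Agent.Helper112

/-- discrepancy of `f` in the class `a` mod `m`, over `1..x` -/
noncomputable def Dl (x m a : ℕ) (f : ℕ → ℝ) : ℝ :=
  ∑ n ∈ (Icc 1 x).filter (fun n => n ≡ a [MOD m]), f n -
    (1 / (Nat.totient m : ℝ)) * ∑ n ∈ (Icc 1 x).filter (fun n => n.Coprime m), f n

/-- sum of the Moebius function over divisors `e > V` of `b` -/
noncomputable def betaV (V b : ℕ) : ℝ :=
  ∑ e ∈ b.divisors.filter (fun e => V < e), ((ArithmeticFunction.moebius e : ℤ) : ℝ)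

/-- type II part of von Mangoldt -/
noncomputable def LamII (U V n : ℕ) : ℝ :=
  ∑ i ∈ n.divisorsAntidiagonal, betaV V i.1 *
    (if U < i.2 then ArithmeticFunction.vonMangoldt i.2 else 0)

end Pool.Agent.Helper112
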