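import Mathlib
import Pool.Agent.H27.G.R_seed8.Helper112.Defs
import Pool.Agent.H27.G.R_seed8.Helper112.Bilinear
import Pool.Agent.H27.G.R_seed8.Helper112.Arith

open Finset

namespace Pool.Agent.Helper112

namespace TII

/-- the error kernel -/
noncomputable def E (m a n : ℕ) : ℝ :=
  (if n ≡ a [MOD m] then (1 : ℝ) else 0) - (if n.Coprime m then (1 : ℝ) / (Nat.totient m : ℝ) else 0)

/-- truncated von Mangoldt -/
noncomputable def L2 (U c : ℕ) : ℝ := if U < c then ArithmeticFunction.vonMangoldt c else 0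

lemma L2_nonneg (U c : ℕ) : 0 ≤ L2 U c := by
  unfold L2; split_ifs
  · exact ArithmeticFunction.vonMangoldt_nonneg
  · exact le_refl _

lemma L2_le (U c : ℕ) : L2 U c ≤ ArithmeticFunction.vonMangoldt c := by
  unfold L2; split_ifs
  · exact le_refl _
  · exact ArithmeticFunction.vonMangoldt_nonneg

lemma Dl_eq (x m a : ℕ) (f : ℕ → ℝ) : Dl x m a f = ∑ n ∈ Icc 1 x, f n * E m a n := by
  unfold Dl E
  rw [sum_filter, sum_filter, mul_sum, ← sum_sub_distrib]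
  apply sum_congr rfl
  intro n _
  split_ifs <;> ring

lemma hyper (x : ℕ) (g : ℕ → ℕ → ℝ) :
    ∑ n ∈ Icc 1 x, ∑ i ∈ n.divisorsAntidiagonal, g i.1 i.2 =
      ∑ c ∈ Icc 1 x, ∑ b ∈ Icc 1 (x / c), g b c := by
  rw [sum_sigma', sum_sigma']
  apply sum_nbij' (fun p => (⟨p.2.2, p.2.1⟩ : (_ : ℕ) × ℕ))
    (fun q => (⟨q.2 * q.1, (q.2, q.1)⟩ : (_ : ℕ) × (ℕ × ℕ)))
  · rintro ⟨n, b, c⟩ hp
    simp only [mem_sigma, mem_Icc, Nat.mem_divisorsAntidiagonal] at hp ⊢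
    obtain ⟨⟨h1, h2⟩, h3, h4⟩ := hp
    have hb : 0 < b := Nat.pos_of_ne_zero (by rintro rfl; simp at h3; omega)
    have hc : 0 < c := Nat.pos_of_ne_zero (by rintro rfl; simp at h3; omega)
    refine ⟨⟨hc, ?_⟩, hb, ?_⟩
    · have : c ≤ b * c := Nat.le_mul_of_pos_left c hb
      omega
    · rw [Nat.le_div_iff_mul_le hc]; omega
  · rintro ⟨c, b⟩ hp
    simp only [mem_sigma, mem_Icc, Nat.mem_divisorsAntidiagonal] at hp ⊢
    obtain ⟨⟨h1, h2⟩, h3, h4⟩ := hp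
    rw [Nat.le_div_iff_mul_le h1] at h4
    have : 0 < b * c := Nat.mul_pos h3 h1
    exact ⟨⟨this, h4⟩, trivial, this.ne'⟩
  · rintro ⟨n, b, c⟩ hp
    simp only [mem_sigma, mem_Icc, Nat.mem_divisorsAntidiagonal] at hp ⊢
    obtain ⟨⟨h1, h2⟩, h3, h4⟩ := hp
    subst h3
    rfl
  · rintro ⟨c, b⟩ hp
    rfl
  · rintro ⟨n, b, c⟩ hp
    rfl

/-- box index of `c` -/
def key (K c : ℕ) : ℕ × ℕ := (Nat.log 2 c, K * (c - 2 ^ Nat.log 2 c) / 2 ^ Nat.log 2 c)

/-- range of `b` for a box -/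
def Xk (K x : ℕ) (k : ℕ × ℕ) : ℕ := x * K / (2 ^ k.1 * (K + k.2 + 1))

/-- range of `c` for a box -/
def Yk (K : ℕ) (k : ℕ × ℕ) : ℕ := 2 ^ k.1 * (K + k.2 + 1) / K

lemma div_spec (K c P : ℕ) (hP0 : 0 < P) (h1 : P ≤ c) :
    P * (K + K * (c - P) / P) ≤ K * c ∧ K * c < P * (K + K * (c - P) / P + 1) := by
  obtain ⟨d, rfl⟩ := Nat.exists_eq_add_of_le h1
  have e : P + d - P = d := by omega
  rw [e]
  have h2 := Nat.div_mul_le_self (K * d) P
  have h3 := Nat.lt_div_mul_add (a := K * d) hP0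
  constructor
  · nlinarith
  · nlinarith

lemma key_spec (K c : ℕ) (hc : 1 ≤ c) :
    2 ^ (key K c).1 * (K + (key K c).2) ≤ K * c ∧
      K * c < 2 ^ (key K c).1 * (K + (key K c).2 + 1) :=
  div_spec K c (2 ^ Nat.log 2 c) (by positivity) (Nat.pow_log_le_self 2 (by omega))

lemma key_mem (K c x : ℕ) (hK : 1 ≤ K) (hc : 1 ≤ c) (hcx : c ≤ x) :
    key K c ∈ range (Nat.log 2 x + 1) ×ˢ range K := by
  unfold key
  rw [mem_product, mem_range, mem_range]
  refine ⟨Nat.lt_succ_of_le (show Nat.log 2 c ≤ Nat.log 2 x from Nat.log_mono_right hcx), ?_⟩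
  simp only
  have h1 : 2 ^ Nat.log 2 c ≤ c := Nat.pow_log_le_self 2 (by omega)
  have h2 : c < 2 ^ (Nat.log 2 c + 1) := Nat.lt_pow_succ_log_self (by norm_num) c
  rw [pow_succ] at h2
  rw [Nat.div_lt_iff_lt_mul (by positivity)]
  apply Nat.mul_lt_mul_of_pos_left _ hK
  omega

lemma XY_le (K x : ℕ) (hK : 1 ≤ K) (k : ℕ × ℕ) : Xk K x k * Yk K k ≤ x := by
  unfold Xk Yk
  set Z := 2 ^ k.1 * (K + k.2 + 1)
  have h1 := Nat.div_mul_le_self (x * K) Z
  have h2 := Nat.div_mul_le_self Z K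
  have h3 : x * K / Z * (Z / K) * K ≤ x * K := by
    calc x * K / Z * (Z / K) * K = x * K / Z * (Z / K * K) := by ring
      _ ≤ x * K / Z * Z := Nat.mul_le_mul_left _ h2
      _ ≤ x * K := h1
  exact Nat.le_of_mul_le_mul_right h3 hK

lemma le_Y (K c : ℕ) (hK : 1 ≤ K) (hc : 1 ≤ c) : c ≤ Yk K (key K c) := by
  unfold Yk
  rw [Nat.le_div_iff_mul_le hK, mul_comm]
  exact (key_spec K c hc).2.le

lemma X_le (K x c : ℕ) (hK : 1 ≤ K) (hc : 1 ≤ c) : Xk K x (key K c) ≤ x / c := by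
  rw [Nat.le_div_iff_mul_le hc]
  exact (Nat.mul_le_mul_left _ (le_Y K c hK hc)).trans (XY_le K x hK _)

lemma left_pairs (K x b c : ℕ) (hc : 1 ≤ c) (hb : Xk K x (key K c) < b) :
    x * K < b * c * (K + 1) := by
  obtain ⟨h1, h2⟩ := key_spec K c hc
  unfold Xk at hb
  set s := (key K c).1
  set r := (key K c).2
  have hZ : 0 < 2 ^ s * (K + r + 1) := by positivity
  rw [Nat.div_lt_iff_lt_mul hZ] at hb
  have hP : 0 < 2 ^ s := by positivity
  set P := 2 ^ s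
  by_contra hcon
  push Not at hcon
  have h3 : b * c * (K + 1) * (K + r + 1) ≤ x * K * (K + r + 1) := Nat.mul_le_mul_right _ hcon
  have h4 : x * K * (K + r + 1) ≤ x * (K + r) * (K + 1) := by nlinarith [Nat.zero_le (x * r)]
  have h5 : b * (P * (K + r)) * (K + r + 1) * (K + 1) ≤ b * (K * c) * (K + r + 1) * (K + 1) := by
    gcongr
  have h6 : x * K * ((K + r) * (K + 1)) < b * (P * (K + r + 1)) * ((K + r) * (K + 1)) ∨ K + r = 0 := by
    rcases Nat.eq_zero_or_pos (K + r) with h | h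
    · exact Or.inr h
    · exact Or.inl (Nat.mul_lt_mul_of_pos_right hb (by positivity))
  rcases h6 with h6 | h6
  · have h7 : b * (K * c) * (K + r + 1) * (K + 1) = (b * c * (K + 1) * (K + r + 1)) * K := by ring
    have h8 : (b * c * (K + 1) * (K + r + 1)) * K ≤ (x * (K + r) * (K + 1)) * K :=
      Nat.mul_le_mul_right _ (h3.trans h4)
    have h9 : x * K * ((K + r) * (K + 1)) = (x * (K + r) * (K + 1)) * K := by ring
    have h10 : b * (P * (K + r + 1)) * ((K + r) * (K + 1)) =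
      b * (P * (K + r)) * (K + r + 1) * (K + 1) := by ring
    omega
  · have hK : K = 0 := by omega
    have hr : r = 0 := by omega
    rw [hK, hr] at h2
    rw [hK] at hb hcon
    have : 0 < b := Nat.pos_of_ne_zero (by rintro rfl; simp at hb)
    have : 0 < b * c := Nat.mul_pos this hc
    omega

lemma betaV_abs (V b : ℕ) : |betaV V b| ≤ b.divisors.card := by
  unfold betaV
  refine (abs_sum_le_sum_abs _ _).trans ?_
  have : ∀ e ∈ b.divisors.filter (fun e => V < e),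
      |((ArithmeticFunction.moebius e : ℤ) : ℝ)| ≤ 1 := by
    intro e _
    have := ArithmeticFunction.abs_moebius_le_one (n := e)
    exact_mod_cast this
  refine (sum_le_sum this).trans ?_
  rw [sum_const, nsmul_eq_mul, mul_one]
  exact_mod_cast card_filter_le _ _

lemma betaV_zero (V b : ℕ) (hb : b ≤ V) : betaV V b = 0 := by
  unfold betaV
  rw [filter_eq_empty_iff.mpr, sum_empty]
  intro e he
  have := Nat.divisor_le he
  omega

/-- box weights -/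
noncomputable def wt (K U x : ℕ) (k : ℕ × ℕ) (c : ℕ) : ℝ :=
  if key K c = k ∧ c ≤ x then L2 U c else 0

lemma decomp (K U V x m a : ℕ) (hK : 1 ≤ K) :
    Dl x m a (fun n => LamII U V n) =
      ∑ k ∈ range (Nat.log 2 x + 1) ×ˢ range K,
        (∑ b ∈ Icc 1 (Xk K x k), ∑ c ∈ Icc 1 (Yk K k), betaV V b * wt K U x k c * E m a (b * c)) +
      ∑ c ∈ Icc 1 x, ∑ b ∈ Ioc (Xk K x (key K c)) (x / c), betaV V b * L2 U c * E m a (b * c) := by
  rw [Dl_eq]
  have h1 : ∑ n ∈ Icc 1 x, LamII U V n * E m a n =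
      ∑ c ∈ Icc 1 x, ∑ b ∈ Icc 1 (x / c), betaV V b * L2 U c * E m a (b * c) := by
    rw [← hyper x (fun b c => betaV V b * L2 U c * E m a (b * c))]
    apply sum_congr rfl
    intro n _
    unfold LamII
    rw [sum_mul]
    apply sum_congr rfl
    intro i hi
    rw [Nat.mem_divisorsAntidiagonal] at hi
    rw [hi.1]
    rfl
  rw [h1]
  have h2 : ∀ c ∈ Icc 1 x, ∑ b ∈ Icc 1 (x / c), betaV V b * L2 U c * E m a (b * c) =
      ∑ b ∈ Icc 1 (Xk K x (key K c)), betaV V b * L2 U c * E m a (b * c) +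
      ∑ b ∈ Ioc (Xk K x (key K c)) (x / c), betaV V b * L2 U c * E m a (b * c) := by
    intro c hc
    rw [mem_Icc] at hc
    have hX := X_le K x c hK hc.1
    rw [← sum_union]
    · congr 1
      ext b
      simp only [mem_Icc, mem_union, mem_Ioc]
      omega
    · rw [disjoint_left]
      intro b hb hb'
      rw [mem_Icc] at hb
      rw [mem_Ioc] at hb'
      omega
  rw [sum_congr rfl h2, sum_add_distrib]
  congr 1
  have h3 : ∀ c ∈ Icc 1 x, key K c ∈ range (Nat.log 2 x + 1) ×ˢ range K := by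
    intro c hc
    rw [mem_Icc] at hc
    exact key_mem K c x hK hc.1 hc.2
  rw [← sum_fiberwise_of_maps_to h3]
  apply sum_congr rfl
  intro k _
  have h6 : ∀ c ∈ (Icc 1 x).filter (fun c => key K c = k),
      ∑ b ∈ Icc 1 (Xk K x (key K c)), betaV V b * L2 U c * E m a (b * c) =
      ∑ b ∈ Icc 1 (Xk K x k), betaV V b * L2 U c * E m a (b * c) := by
    intro c hc
    rw [mem_filter] at hc
    rw [hc.2]
  rw [sum_congr rfl h6, sum_comm]
  apply sum_congr rfl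
  intro b _
  have h4 : (Icc 1 x).filter (fun c => key K c = k) =
      (Icc 1 (Yk K k)).filter (fun c => key K c = k ∧ c ≤ x) := by
    ext c
    simp only [mem_filter, mem_Icc]
    constructor
    · rintro ⟨⟨h5, h6⟩, h7⟩
      refine ⟨⟨h5, ?_⟩, h7, h6⟩
      rw [← h7]
      exact le_Y K c hK h5
    · rintro ⟨⟨h5, h6⟩, h7, h8⟩
      exact ⟨⟨h5, h8⟩, h7⟩
  rw [h4, sum_filter]
  apply sum_congr rfl
  intro c _
  unfold wt
  split_ifs with h5
  · rfl
  · simp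

lemma left_bound (K U V x m a : ℕ) (D : ℝ)
    (hD : ∀ n, 1 ≤ n → n ≤ x → (n.divisors.card : ℝ) ≤ D) :
    |∑ c ∈ Icc 1 x, ∑ b ∈ Ioc (Xk K x (key K c)) (x / c), betaV V b * L2 U c * E m a (b * c)| ≤
      D * Real.log x * ∑ n ∈ Ioc (x * K / (K + 1)) x, |E m a n| := by
  have hstep : |∑ c ∈ Icc 1 x, ∑ b ∈ Ioc (Xk K x (key K c)) (x / c),
      betaV V b * L2 U c * E m a (b * c)| ≤
      ∑ c ∈ Icc 1 x, ∑ b ∈ Icc 1 (x / c),
        (if x * K < b * c * (K + 1) then |betaV V b| * L2 U c * |E m a (b * c)| else 0) := by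
    refine (abs_sum_le_sum_abs _ _).trans (sum_le_sum ?_)
    intro c hc
    rw [mem_Icc] at hc
    refine (abs_sum_le_sum_abs _ _).trans ?_
    have e1 : ∀ b ∈ Ioc (Xk K x (key K c)) (x / c), |betaV V b * L2 U c * E m a (b * c)| =
        (if x * K < b * c * (K + 1) then |betaV V b| * L2 U c * |E m a (b * c)| else 0) := by
      intro b hb
      rw [mem_Ioc] at hb
      rw [if_pos (left_pairs K x b c hc.1 hb.1), abs_mul, abs_mul, abs_of_nonneg (L2_nonneg U c)]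
    rw [sum_congr rfl e1]
    apply sum_le_sum_of_subset_of_nonneg
    · intro b hb
      rw [mem_Ioc] at hb
      rw [mem_Icc]
      omega
    · intro b _ _
      split_ifs
      · exact mul_nonneg (mul_nonneg (abs_nonneg _) (L2_nonneg _ _)) (abs_nonneg _)
      · exact le_refl _
  refine hstep.trans ?_
  rw [← hyper x (fun b c => if x * K < b * c * (K + 1) then |betaV V b| * L2 U c * |E m a (b * c)| else 0)]
  have e2 : Ioc (x * K / (K + 1)) x = (Icc 1 x).filter (fun n => x * K < n * (K + 1)) := by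
    ext n
    rw [mem_Ioc, mem_filter, mem_Icc, Nat.div_lt_iff_lt_mul (by omega)]
    constructor
    · rintro ⟨h1, h2⟩
      have : n ≠ 0 := by rintro rfl; simp at h1
      exact ⟨⟨by omega, h2⟩, h1⟩
    · rintro ⟨⟨_, h2⟩, h3⟩
      exact ⟨h3, h2⟩
  rw [e2, sum_filter, mul_sum]
  apply sum_le_sum
  intro n hn
  rw [mem_Icc] at hn
  have hlogx : Real.log n ≤ Real.log x := Real.log_le_log (by exact_mod_cast hn.1) (by exact_mod_cast hn.2)
  have hlog0 : 0 ≤ Real.log n := Real.log_natCast_nonneg n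
  have hD0 : 0 ≤ D := (Nat.cast_nonneg _).trans (hD n hn.1 hn.2)
  by_cases hx : x * K < n * (K + 1)
  · rw [if_pos hx]
    have e3 : ∀ i ∈ n.divisorsAntidiagonal,
        (if x * K < i.1 * i.2 * (K + 1) then |betaV V i.1| * L2 U i.2 * |E m a (i.1 * i.2)| else 0) ≤
        D * |E m a n| * ArithmeticFunction.vonMangoldt i.2 := by
      intro i hi
      rw [Nat.mem_divisorsAntidiagonal] at hi
      rw [hi.1, if_pos hx]
      have hdvd : i.1 ∣ n := ⟨i.2, hi.1.symm⟩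
      have h1 : |betaV V i.1| ≤ D := by
        refine (betaV_abs V i.1).trans (le_trans ?_ (hD n hn.1 hn.2))
        exact_mod_cast card_le_card (Nat.divisors_subset_of_dvd hi.2 hdvd)
      have h2 := L2_le U i.2
      have h3 := L2_nonneg U i.2
      calc |betaV V i.1| * L2 U i.2 * |E m a n| ≤
          D * ArithmeticFunction.vonMangoldt i.2 * |E m a n| := by gcongr
        _ = _ := by ring
    refine (sum_le_sum e3).trans ?_
    rw [← mul_sum]
    have e4 : ∑ i ∈ n.divisorsAntidiagonal, ArithmeticFunction.vonMangoldt i.2 = Real.log n := by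
      rw [← ArithmeticFunction.vonMangoldt_sum, Nat.sum_divisorsAntidiagonal'
        (f := fun i j => ArithmeticFunction.vonMangoldt j)]
    rw [e4]
    calc D * |E m a n| * Real.log n ≤ D * |E m a n| * Real.log x := by gcongr
      _ = _ := by ring
  · rw [if_neg hx, mul_zero]
    apply le_of_eq
    apply sum_eq_zero
    intro i hi
    rw [Nat.mem_divisorsAntidiagonal] at hi
    rw [hi.1, if_neg hx]

lemma count_class (A B m a : ℕ) (hm : 0 < m) (hAB : A ≤ B) :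
    (((Ioc A B).filter (fun n => n ≡ a [MOD m])).card : ℝ) ≤ ((B:ℝ) - A) / m + 1 := by
  have h := Nat.Ioc_filter_modEq_card A B hm a
  have h1 : (((Ioc A B).filter (fun n => n ≡ a [MOD m])).card : ℚ) ≤ ((B:ℚ) - A) / m + 1 := by
    have h2 : (((Ioc A B).filter (fun n => n ≡ a [MOD m])).card : ℤ) =
      max (⌊((B:ℚ) - a) / (m:ℚ)⌋ - ⌊((A:ℚ) - a) / (m:ℚ)⌋) 0 := h
    have h3 : (((Ioc A B).filter (fun n => n ≡ a [MOD m])).card : ℚ) =
      max (((⌊((B:ℚ) - a) / (m:ℚ)⌋ : ℤ) : ℚ) - ((⌊((A:ℚ) - a) / (m:ℚ)⌋ : ℤ) : ℚ)) 0 := by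
      exact_mod_cast h2
    rw [h3]
    have hmq : (0:ℚ) < m := by exact_mod_cast hm
    have hABq : (A:ℚ) ≤ B := by exact_mod_cast hAB
    apply max_le
    · have h4 := Int.floor_le (((B:ℚ) - a) / (m:ℚ))
      have h5 := Int.lt_floor_add_one (((A:ℚ) - a) / (m:ℚ))
      have h6 : ((B:ℚ) - A) / m = ((B:ℚ) - a) / (m:ℚ) - ((A:ℚ) - a) / (m:ℚ) := by
        field_simp; ring
      rw [h6]
      linarith
    · have : 0 ≤ ((B:ℚ) - A) / m := div_nonneg (by linarith) hmq.le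
      linarith
  have h7 := (Rat.cast_le (K := ℝ)).mpr h1
  push_cast at h7
  exact h7

lemma E_sum (K x m a : ℕ) (hK : 1 ≤ K) (hm : 0 < m) (htot : m ≤ 2 * Nat.totient m) :
    ∑ n ∈ Ioc (x * K / (K + 1)) x, |E m a n| ≤ 3 * ((x:ℝ) / K + 1) / m + 1 := by
  have hKr : (0:ℝ) < K := by exact_mod_cast hK
  have hmr : (0:ℝ) < m := by exact_mod_cast hm
  have htr : (0:ℝ) < Nat.totient m := by exact_mod_cast Nat.totient_pos.mpr hm
  set A := x * K / (K + 1) with hA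
  have hAx : A ≤ x := by
    rw [hA]
    apply Nat.div_le_of_le_mul
    nlinarith
  have hlen : (x:ℝ) - A ≤ x / K + 1 := by
    have h1 : x * K < A * (K + 1) + (K + 1) := Nat.lt_div_mul_add (a := x * K) (by omega)
    have h2 : (x:ℝ) * K < A * (K + 1) + (K + 1) := by exact_mod_cast h1
    have h3 : (x:ℝ) ≤ A + 1 + x / (K + 1) := by
      have : (0:ℝ) < K + 1 := by positivity
      rw [← sub_nonneg]
      have e : (A:ℝ) + 1 + x / (K + 1) - x = (A * (K + 1) + (K + 1) - x * K) / (K + 1) := by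
        field_simp; ring
      rw [e]
      apply div_nonneg _ this.le
      linarith
    have h4 : (x:ℝ) / (K + 1) ≤ x / K := by
      apply div_le_div_of_nonneg_left (by positivity) hKr (by linarith)
    linarith
  have h1 : ∀ n ∈ Ioc A x, |E m a n| ≤ (if n ≡ a [MOD m] then (1:ℝ) else 0) + 2 / m := by
    intro n _
    unfold E
    have h2 : (1:ℝ) / Nat.totient m ≤ 2 / m := by
      rw [div_le_div_iff₀ htr hmr]
      have : (m:ℝ) ≤ 2 * Nat.totient m := by exact_mod_cast htot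
      linarith
    have h3 : (0:ℝ) < 1 / Nat.totient m := by positivity
    rw [abs_le]
    constructor <;> split_ifs <;> linarith
  refine (sum_le_sum h1).trans ?_
  rw [sum_add_distrib, sum_boole, sum_const, nsmul_eq_mul, Nat.card_Ioc]
  have h5 := count_class A x m a hm hAx
  have h6 : ((x - A : ℕ) : ℝ) = (x:ℝ) - A := by rw [Nat.cast_sub hAx]
  rw [h6]
  have h7 : ((x:ℝ) - A) / m ≤ (x / K + 1) / m := by gcongr
  have h8 : ((x:ℝ) - A) * (2 / m) ≤ (x / K + 1) * (2 / m) := by gcongr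
  have e : 3 * ((x:ℝ) / K + 1) / m + 1 = ((x:ℝ) / K + 1) / m + 1 + (x / K + 1) * (2 / m) := by ring
  rw [e]
  linarith

/-- bound for one box -/
lemma box_bound (K U x F0 F1 : ℕ) (hK : 1 ≤ K) (hx : 1 ≤ x) (hF0 : 1 ≤ F0)
    (D W : ℝ) (hD : ∀ n, 1 ≤ n → n ≤ x → (n.divisors.card : ℝ) ≤ D) (hD0 : 0 ≤ D)
    (hUx : ∀ z : ℕ, z * U ≤ x → Real.sqrt z ≤ W) (hW0 : 0 ≤ W)
    (M : Finset ℕ) (a : ℕ → ℕ)
    (hM : ∀ m ∈ M, Squarefree m ∧ m ≤ F1 ∧ m ≤ 2 * Nat.totient m ∧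
      (∀ f, f ∣ m → f ≠ 1 → F0 ≤ f) ∧ (a m).Coprime m) (k : ℕ × ℕ) :
    ∑ m ∈ M, |∑ b ∈ Icc 1 (Xk K x k), ∑ c ∈ Icc 1 (Yk K k),
      betaV U b * wt K U x k c * E m (a m) (b * c)| ≤
      100 * (1 + Real.log F1) ^ 2 * (Real.sqrt x / F0 + 2 * W + F1) *
        (Real.sqrt x * D * Real.log x) := by
  have h := bilinear_bound (Xk K x k) (Yk K k) F0 F1 (betaV U) (wt K U x k) M a hF0 hM
  refine h.trans ?_
  set X := Xk K x k with hX
  set Y := Yk K k with hY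
  have hXY : X * Y ≤ x := XY_le K x hK k
  have hlogx : 0 ≤ Real.log x := Real.log_natCast_nonneg x
  have hRHS : 0 ≤ 100 * (1 + Real.log F1) ^ 2 * (Real.sqrt x / F0 + 2 * W + F1) *
        (Real.sqrt x * D * Real.log x) := by positivity
  by_cases hXU : X ≤ U
  · have : ∑ b ∈ Icc 1 X, betaV U b ^ 2 = 0 := by
      apply sum_eq_zero
      intro b hb
      rw [mem_Icc] at hb
      rw [betaV_zero U b (hb.2.trans hXU)]
      simp
    rw [this, Real.sqrt_zero, zero_mul, mul_zero]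
    exact hRHS
  by_cases hYU : Y ≤ U
  · have : ∑ c ∈ Icc 1 Y, wt K U x k c ^ 2 = 0 := by
      apply sum_eq_zero
      intro c hc
      rw [mem_Icc] at hc
      unfold wt L2
      rw [if_neg (show ¬ U < c by omega)]
      simp
    rw [this, Real.sqrt_zero, mul_zero, mul_zero]
    exact hRHS
  push Not at hXU hYU
  have hXW : Real.sqrt X ≤ W := hUx X ((Nat.mul_le_mul_left _ hYU.le).trans hXY)
  have hYW : Real.sqrt Y ≤ W := hUx Y (by rw [mul_comm]; exact (Nat.mul_le_mul_right _ hXU.le).trans hXY)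
  have hXYr : (X:ℝ) * Y ≤ x := by exact_mod_cast hXY
  have hXx : X ≤ x := (Nat.le_mul_of_pos_right X (by omega)).trans hXY
  have hS1 : Real.sqrt (∑ b ∈ Icc 1 X, betaV U b ^ 2) ≤ Real.sqrt X * D := by
    rw [Real.sqrt_le_left (by positivity), mul_pow, Real.sq_sqrt (by positivity)]
    have : ∀ b ∈ Icc 1 X, betaV U b ^ 2 ≤ D ^ 2 := by
      intro b hb
      rw [mem_Icc] at hb
      rw [← sq_abs]
      exact pow_le_pow_left₀ (abs_nonneg _) ((betaV_abs U b).trans (hD b hb.1 (hb.2.trans hXx))) 2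
    refine (sum_le_sum this).trans ?_
    simp
  have hS2 : Real.sqrt (∑ c ∈ Icc 1 Y, wt K U x k c ^ 2) ≤ Real.sqrt Y * Real.log x := by
    rw [Real.sqrt_le_left (by positivity), mul_pow, Real.sq_sqrt (by positivity)]
    have : ∀ c ∈ Icc 1 Y, wt K U x k c ^ 2 ≤ Real.log x ^ 2 := by
      intro c hc
      rw [mem_Icc] at hc
      unfold wt
      split_ifs with h1
      · apply pow_le_pow_left₀ (L2_nonneg _ _)
        refine (L2_le _ _).trans (ArithmeticFunction.vonMangoldt_le_log.trans ?_)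
        exact Real.log_le_log (by exact_mod_cast hc.1) (by exact_mod_cast h1.2)
      · simpa using sq_nonneg (Real.log x)
    refine (sum_le_sum this).trans ?_
    simp
  have hsq : Real.sqrt ((X:ℝ) * Y) ≤ Real.sqrt x := Real.sqrt_le_sqrt hXYr
  have e1 : Real.sqrt ((X:ℝ) * Y) / F0 + (Real.sqrt X + Real.sqrt Y) + F1 ≤
      Real.sqrt x / F0 + 2 * W + F1 := by
    have : Real.sqrt ((X:ℝ) * Y) / F0 ≤ Real.sqrt x / F0 := by gcongr
    linarith
  have e2 : Real.sqrt (∑ b ∈ Icc 1 X, betaV U b ^ 2) * Real.sqrt (∑ c ∈ Icc 1 Y, wt K U x k c ^ 2) ≤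
      Real.sqrt x * D * Real.log x := by
    calc Real.sqrt (∑ b ∈ Icc 1 X, betaV U b ^ 2) * Real.sqrt (∑ c ∈ Icc 1 Y, wt K U x k c ^ 2) ≤
        (Real.sqrt X * D) * (Real.sqrt Y * Real.log x) := by gcongr
      _ = (Real.sqrt ((X:ℝ) * Y)) * D * Real.log x := by
          rw [Real.sqrt_mul (by positivity)]; ring
      _ ≤ _ := by gcongr
  gcongr

/-- the whole type II sum, with parameters -/
lemma main_bound (K U x F0 F1 : ℕ) (hK : 1 ≤ K) (hx : 1 ≤ x) (hF0 : 1 ≤ F0)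
    (D W : ℝ) (hD : ∀ n, 1 ≤ n → n ≤ x → (n.divisors.card : ℝ) ≤ D) (hD0 : 0 ≤ D)
    (hUx : ∀ z : ℕ, z * U ≤ x → Real.sqrt z ≤ W) (hW0 : 0 ≤ W)
    (M : Finset ℕ) (a : ℕ → ℕ)
    (hM : ∀ m ∈ M, Squarefree m ∧ m ≤ F1 ∧ m ≤ 2 * Nat.totient m ∧
      (∀ f, f ∣ m → f ≠ 1 → F0 ≤ f) ∧ (a m).Coprime m) :
    ∑ m ∈ M, |Dl x m (a m) (fun n => LamII U U n)| ≤
      ((Nat.log 2 x + 1) * K) * (100 * (1 + Real.log F1) ^ 2 * (Real.sqrt x / F0 + 2 * W + F1) *
        (Real.sqrt x * D * Real.log x)) +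
      D * Real.log x * (3 * ((x:ℝ) / K + 1) * (1 + Real.log F1) + F1) := by
  have hlogx : 0 ≤ Real.log x := Real.log_natCast_nonneg x
  have h1 : ∀ m ∈ M, |Dl x m (a m) (fun n => LamII U U n)| ≤
      ∑ k ∈ range (Nat.log 2 x + 1) ×ˢ range K,
        |∑ b ∈ Icc 1 (Xk K x k), ∑ c ∈ Icc 1 (Yk K k),
          betaV U b * wt K U x k c * E m (a m) (b * c)| +
      D * Real.log x * (3 * ((x:ℝ) / K + 1) / m + 1) := by
    intro m hm
    obtain ⟨hs, hle, htot, hdiv, hcop⟩ := hM m hm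
    rw [decomp K U U x m (a m) hK]
    refine (abs_add_le _ _).trans (add_le_add (abs_sum_le_sum_abs _ _) ?_)
    refine (left_bound K U U x m (a m) D hD).trans ?_
    exact mul_le_mul_of_nonneg_left (E_sum K x m (a m) hK (Nat.pos_of_ne_zero hs.ne_zero) htot)
      (by positivity)
  refine (sum_le_sum h1).trans ?_
  rw [sum_add_distrib, sum_comm]
  apply add_le_add
  · refine (sum_le_sum fun k _ => box_bound K U x F0 F1 hK hx hF0 D W hD hD0 hUx hW0 M a hM k).trans ?_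
    rw [sum_const, card_product, card_range, card_range, nsmul_eq_mul]
    push_cast
    exact le_refl _
  · rw [← mul_sum]
    apply mul_le_mul_of_nonneg_left _ (by positivity)
    rw [sum_add_distrib]
    have hMsub : M ⊆ Icc 1 F1 := by
      intro m hm
      obtain ⟨hs, hle, -⟩ := hM m hm
      rw [mem_Icc]
      exact ⟨Nat.pos_of_ne_zero hs.ne_zero, hle⟩
    apply add_le_add
    · have e : ∀ m ∈ M, 3 * ((x:ℝ) / K + 1) / m = 3 * ((x:ℝ) / K + 1) * (1 / (m:ℝ)) := by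
        intro m _; ring
      rw [sum_congr rfl e, ← mul_sum]
      apply mul_le_mul_of_nonneg_left _ (by positivity)
      have h2 := harmonic_le_one_add_log F1
      rw [harmonic_eq_sum_Icc] at h2
      push_cast at h2
      simp_rw [one_div]
      refine le_trans ?_ h2
      exact sum_le_sum_of_subset_of_nonneg hMsub fun _ _ _ => by positivity
    · rw [sum_const, nsmul_eq_mul, mul_one]
      have := card_le_card hMsub
      rw [Nat.card_Icc, Nat.add_sub_cancel] at this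
      exact_mod_cast this

lemma log_bound (K : ℕ) (hK : 1 ≤ K) : 1 + Real.log K ≤ 33 * (K:ℝ) ^ (1/32 : ℝ) := by
  have h1 : Real.log K ≤ (K:ℝ) ^ (1/32 : ℝ) / (1/32) :=
    Real.log_le_rpow_div (by positivity) (by norm_num)
  have h2 : (1:ℝ) ≤ (K:ℝ) ^ (1/32 : ℝ) :=
    Real.one_le_rpow (by exact_mod_cast hK) (by norm_num)
  linarith

end TII

open TII in
/-- T4b (file TypeII.lean): type II estimate, from bilinear_bound (T3) and divisor_bound (T5a). -/
theorem typeII_bound (L : ℕ) (hL : 4 ≤ L) : ∃ K0 : ℕ, ∀ K : ℕ, K0 ≤ K →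
    ∀ (M : Finset ℕ) (a : ℕ → ℕ),
    (∀ m ∈ M, Squarefree m ∧ m * K ^ 2 ≤ K ^ (2 * L) ∧ m ≤ 2 * Nat.totient m ∧
      (∀ f, f ∣ m → f ≠ 1 → K ^ 2 ≤ f) ∧ (a m).Coprime m) →
    ∑ m ∈ M, |Dl (K ^ (4 * L)) m (a m) (fun n => LamII (K ^ L) (K ^ L) n)|
      ≤ (K : ℝ) ^ (4 * L) / (2 * Real.sqrt K) := by
  have hLr : (0:ℝ) < L := by
    have : 0 < L := by omega
    exact_mod_cast this
  obtain ⟨C, hC0, hC⟩ := divisor_bound (1 / (16 * L)) (by positivity)
  set C2 : ℝ := 407 * (264 * L) ^ 4 * C with hC2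
  have hC20 : 0 < C2 := by positivity
  refine ⟨⌈(2 * C2) ^ 8⌉₊ + 1, ?_⟩
  intro K hK M a hM
  have hK1 : 1 ≤ K := by omega
  have hKr : (1:ℝ) ≤ K := by exact_mod_cast hK1
  have hK0 : (0:ℝ) < K := by linarith
  have hKbig : (2 * C2) ^ 8 ≤ K := by
    have h1 := Nat.le_ceil ((2 * C2) ^ 8)
    have h2 : ((⌈(2 * C2) ^ 8⌉₊ : ℕ) : ℝ) ≤ K := by
      have : ⌈(2 * C2) ^ 8⌉₊ ≤ K := by omega
      exact_mod_cast this
    linarith
  set x := K ^ (4 * L) with hx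
  have hx1 : 1 ≤ x := Nat.one_le_pow _ _ hK1
  set D : ℝ := C * (K:ℝ) ^ (1/4 : ℝ) with hD
  have hD0 : 0 ≤ D := by positivity
  have hDn : ∀ n, 1 ≤ n → n ≤ x → (n.divisors.card : ℝ) ≤ D := by
    intro n hn hnx
    refine (hC n hn).trans ?_
    rw [hD]
    apply mul_le_mul_of_nonneg_left _ hC0.le
    have h1 : (n:ℝ) ^ (1 / (16 * (L:ℝ))) ≤ (x:ℝ) ^ (1 / (16 * (L:ℝ))) :=
      Real.rpow_le_rpow (by positivity) (by exact_mod_cast hnx) (by positivity)
    refine h1.trans (le_of_eq ?_)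
    rw [hx]
    push_cast
    rw [← Real.rpow_natCast, ← Real.rpow_mul hK0.le]
    congr 1
    push_cast
    field_simp
    norm_num
  have hW : ∀ z : ℕ, z * K ^ L ≤ x → Real.sqrt z ≤ (K:ℝ) ^ (2 * L - 2) := by
    intro z hz
    have h1 : z ≤ K ^ (3 * L) := by
      have e : x = K ^ (3 * L) * K ^ L := by rw [hx, ← pow_add]; congr 1; ring
      rw [e] at hz
      exact Nat.le_of_mul_le_mul_right hz (by positivity)
    have h2 : z ≤ (K ^ (2 * L - 2)) ^ 2 := by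
      refine h1.trans ?_
      rw [← pow_mul]
      exact Nat.pow_le_pow_right hK1 (by omega)
    rw [Real.sqrt_le_left (by positivity)]
    exact_mod_cast h2
  have hM' : ∀ m ∈ M, Squarefree m ∧ m ≤ K ^ (2 * L - 2) ∧ m ≤ 2 * Nat.totient m ∧
      (∀ f, f ∣ m → f ≠ 1 → K ^ 2 ≤ f) ∧ (a m).Coprime m := by
    intro m hm
    obtain ⟨h1, h2, h3⟩ := hM m hm
    refine ⟨h1, ?_, h3⟩
    have e : K ^ (2 * L) = K ^ (2 * L - 2) * K ^ 2 := by rw [← pow_add]; congr 1; omega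
    rw [e] at h2
    exact Nat.le_of_mul_le_mul_right h2 (by positivity)
  have hmain := main_bound K (K ^ L) x (K ^ 2) (K ^ (2 * L - 2)) hK1 hx1
    (Nat.one_le_pow _ _ hK1) D ((K:ℝ) ^ (2 * L - 2)) hDn hD0 hW (by positivity) M a hM'
  refine hmain.trans ?_
  set q : ℝ := 1 + Real.log K with hq
  have hlK : 0 ≤ Real.log K := Real.log_natCast_nonneg K
  set Q : ℝ := 8 * L * q with hQ
  have hL4 : (4:ℝ) ≤ L := by exact_mod_cast hL
  have hQ1 : 1 ≤ Q := by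
    rw [hQ, hq]
    nlinarith
  have hlx : Real.log (x:ℝ) ≤ Q := by
    rw [hx]; push_cast
    rw [Real.log_pow, hQ, hq]
    push_cast
    nlinarith
  have hlx0 : 0 ≤ Real.log (x:ℝ) := Real.log_natCast_nonneg x
  have hlF : 1 + Real.log ((K ^ (2 * L - 2) : ℕ) : ℝ) ≤ Q := by
    push_cast
    rw [Real.log_pow, hQ, hq]
    have : ((2 * L - 2 : ℕ) : ℝ) ≤ 2 * L := by
      have : 2 * L - 2 ≤ 2 * L := by omega
      exact_mod_cast this
    nlinarith
  have hlF0 : 0 ≤ 1 + Real.log ((K ^ (2 * L - 2) : ℕ) : ℝ) := by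
    have := Real.log_natCast_nonneg (K ^ (2 * L - 2))
    linarith
  have hl2 : ((Nat.log 2 x : ℕ) : ℝ) + 1 ≤ Q := by
    have h1 : (2:ℝ) ^ (Nat.log 2 x) ≤ x := by
      exact_mod_cast Nat.pow_log_le_self 2 (by omega)
    have h2 : (Nat.log 2 x : ℝ) * Real.log 2 ≤ Real.log x := by
      rw [← Real.log_pow]
      exact Real.log_le_log (by positivity) h1
    have h3 : (1:ℝ) / 2 ≤ Real.log 2 := by
      have := Real.log_two_gt_d9
      linarith
    have h4 : (Nat.log 2 x : ℝ) ≤ 2 * Real.log x := by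
      have : (0:ℝ) ≤ (Nat.log 2 x : ℝ) := by positivity
      nlinarith
    have h5 : Real.log (x:ℝ) = 4 * L * Real.log K := by
      rw [hx]; push_cast
      rw [Real.log_pow]
      push_cast
      ring
    rw [h5] at h4
    rw [hQ, hq]
    nlinarith
  have hsx : Real.sqrt (x:ℝ) = (K:ℝ) ^ (2 * L) := by
    rw [hx]; push_cast
    have : (K:ℝ) ^ (4 * L) = ((K:ℝ) ^ (2 * L)) ^ 2 := by rw [← pow_mul]; congr 1; ring
    rw [this, Real.sqrt_sq (by positivity)]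
  have hbr : Real.sqrt (x:ℝ) / ((K ^ 2 : ℕ) : ℝ) + 2 * (K:ℝ) ^ (2 * L - 2) +
      ((K ^ (2 * L - 2) : ℕ) : ℝ) = 4 * (K:ℝ) ^ (2 * L - 2) := by
    rw [hsx]
    have e : (K:ℝ) ^ (2 * L) = (K:ℝ) ^ (2 * L - 2) * (K:ℝ) ^ 2 := by
      rw [← pow_add]; congr 1; omega
    rw [e]
    push_cast
    field_simp
    ring
  rw [hbr, hsx]
  set P : ℝ := (K:ℝ) ^ (4 * L - 1) with hP
  have hP0 : 0 < P := by positivity
  have eP : (K:ℝ) * ((K:ℝ) ^ (2 * L - 2) * (K:ℝ) ^ (2 * L)) = P := by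
    rw [hP, ← pow_add, ← pow_succ']
    congr 1
    omega
  have exK : (x:ℝ) / K = P := by
    rw [hx]; push_cast
    rw [hP, div_eq_iff hK0.ne', ← pow_succ]
    congr 1
    omega
  have hP1 : 1 ≤ P := one_le_pow₀ hKr
  have hFP : ((K ^ (2 * L - 2) : ℕ) : ℝ) ≤ P := by
    push_cast
    exact pow_le_pow_right₀ hKr (by omega)
  have t1 : (((Nat.log 2 x : ℕ) : ℝ) + 1) * K * (100 * (1 + Real.log ((K ^ (2 * L - 2) : ℕ) : ℝ)) ^ 2 *
      (4 * (K:ℝ) ^ (2 * L - 2)) * ((K:ℝ) ^ (2 * L) * D * Real.log x)) ≤ 400 * Q ^ 4 * D * P := by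
    calc (((Nat.log 2 x : ℕ) : ℝ) + 1) * K * (100 * (1 + Real.log ((K ^ (2 * L - 2) : ℕ) : ℝ)) ^ 2 *
      (4 * (K:ℝ) ^ (2 * L - 2)) * ((K:ℝ) ^ (2 * L) * D * Real.log x)) ≤
        Q * K * (100 * Q ^ 2 * (4 * (K:ℝ) ^ (2 * L - 2)) * ((K:ℝ) ^ (2 * L) * D * Q)) := by
          gcongr
      _ = 400 * Q ^ 4 * D * ((K:ℝ) * ((K:ℝ) ^ (2 * L - 2) * (K:ℝ) ^ (2 * L))) := by ring
      _ = _ := by rw [eP]
  have t2 : D * Real.log x * (3 * ((x:ℝ) / K + 1) * (1 + Real.log ((K ^ (2 * L - 2) : ℕ) : ℝ)) +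
      ((K ^ (2 * L - 2) : ℕ) : ℝ)) ≤ 7 * Q ^ 4 * D * P := by
    rw [exK]
    have h1 : 3 * (P + 1) * (1 + Real.log ((K ^ (2 * L - 2) : ℕ) : ℝ)) +
        ((K ^ (2 * L - 2) : ℕ) : ℝ) ≤ 7 * P * Q := by
      have h2 : 3 * (P + 1) * (1 + Real.log ((K ^ (2 * L - 2) : ℕ) : ℝ)) ≤ 3 * (P + P) * Q := by
        gcongr
      nlinarith
    calc D * Real.log x * (3 * (P + 1) * (1 + Real.log ((K ^ (2 * L - 2) : ℕ) : ℝ)) +
        ((K ^ (2 * L - 2) : ℕ) : ℝ)) ≤ D * Q * (7 * P * Q) := by gcongr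
      _ = 7 * Q ^ 2 * D * P := by ring
      _ ≤ 7 * Q ^ 4 * D * P := by
        gcongr
        norm_num
  have hQ4 : Q ^ 4 ≤ (264 * L) ^ 4 * (K:ℝ) ^ (1/8 : ℝ) := by
    have h1 := log_bound K hK1
    have h2 : Q ≤ 264 * L * (K:ℝ) ^ (1/32 : ℝ) := by
      rw [hQ]
      calc 8 * (L:ℝ) * q ≤ 8 * L * (33 * (K:ℝ) ^ (1/32 : ℝ)) := by gcongr
        _ = _ := by ring
    calc Q ^ 4 ≤ (264 * L * (K:ℝ) ^ (1/32 : ℝ)) ^ 4 := pow_le_pow_left₀ (by linarith) h2 4
      _ = (264 * L) ^ 4 * ((K:ℝ) ^ (1/32 : ℝ)) ^ 4 := by ring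
      _ = _ := by
        congr 1
        rw [← Real.rpow_natCast, ← Real.rpow_mul hK0.le]
        norm_num
  have hfin : 407 * Q ^ 4 * D * P ≤ (x:ℝ) / (2 * Real.sqrt K) := by
    have h1 : 407 * Q ^ 4 * D * P ≤ C2 * (K:ℝ) ^ (3/8 : ℝ) * P := by
      have h2 : 407 * Q ^ 4 * D ≤ C2 * (K:ℝ) ^ (3/8 : ℝ) := by
        calc 407 * Q ^ 4 * D ≤ 407 * ((264 * L) ^ 4 * (K:ℝ) ^ (1/8 : ℝ)) * D := by gcongr
          _ = C2 * ((K:ℝ) ^ (1/8 : ℝ) * (K:ℝ) ^ (1/4 : ℝ)) := by rw [hC2, hD]; ring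
          _ = _ := by
            rw [← Real.rpow_add hK0]
            norm_num
      gcongr
    refine h1.trans ?_
    have h3 : 2 * C2 ≤ (K:ℝ) ^ (1/8 : ℝ) := by
      have h4 : 2 * C2 = ((2 * C2) ^ 8) ^ (1/8 : ℝ) := by
        rw [← Real.rpow_natCast, ← Real.rpow_mul (by positivity)]
        norm_num
      rw [h4]
      exact Real.rpow_le_rpow (by positivity) hKbig (by norm_num)
    have hsK : 0 < Real.sqrt K := Real.sqrt_pos.mpr hK0
    rw [le_div_iff₀ (by positivity)]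
    have e1 : (K:ℝ) = (K:ℝ) ^ (3/8 : ℝ) * ((K:ℝ) ^ (1/2 : ℝ) * (K:ℝ) ^ (1/8 : ℝ)) := by
      rw [← Real.rpow_add hK0, ← Real.rpow_add hK0]
      norm_num
    have e2 : Real.sqrt K = (K:ℝ) ^ (1/2 : ℝ) := Real.sqrt_eq_rpow _
    have e3 : (x:ℝ) = K * P := by
      rw [← exK]; field_simp
    rw [e3]
    calc C2 * (K:ℝ) ^ (3/8 : ℝ) * P * (2 * Real.sqrt K) =
        (K:ℝ) ^ (3/8 : ℝ) * ((K:ℝ) ^ (1/2 : ℝ) * (2 * C2)) * P := by rw [e2]; ring
      _ ≤ (K:ℝ) ^ (3/8 : ℝ) * ((K:ℝ) ^ (1/2 : ℝ) * (K:ℝ) ^ (1/8 : ℝ)) * P := by gcongr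
      _ = K * P := by rw [← e1]
  have e9 : ((K : ℝ) ^ (4 * L)) = (x:ℝ) := by rw [hx]; push_cast; rfl
  rw [e9]
  refine le_trans ?_ hfin
  have := add_le_add t1 t2
  refine this.trans (le_of_eq (by ring))

end Pool.Agent.Helper112

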